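import Pool.Agent.H174.GM.Stmts2

set_option autoImplicit false

namespace Pool.Agent.H695.GM174

open Finset Pool.Agent.H174.GM

private theorem prod_pairs {R : Type*} [CommRing R] {k : ℕ} (f : Fin k → Fin k → R) :
    ∏ p ∈ pairs k, f p.1 p.2 = ∏ i, ∏ j ∈ Finset.Ioi i, f i j := by
  unfold pairs
  rw [Finset.prod_filter, Fintype.prod_prod_type]
  refine Finset.prod_congr rfl fun i _ => ?_
  rw [← Finset.prod_filter]
  refine Finset.prod_congr ?_ fun j _ => rfl
  ext j
  simp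

private theorem gg_perm {K : Type} [Field K] {k : ℕ} (X : Fin k → K) (τ : Equiv.Perm (Fin k)) :
    gg (X ∘ τ) = (Equiv.Perm.sign τ : ℤ) • gg X := by
  have h1 : ∏ i, (1 - (X ∘ τ) i)⁻¹ = ∏ i, (1 - X i)⁻¹ :=
    Equiv.prod_comp τ (fun i => (1 - X i)⁻¹)
  have h2 : ∏ p ∈ pairs k, ((X ∘ τ) p.2 - (X ∘ τ) p.1) * (1 - (X ∘ τ) p.1 * (X ∘ τ) p.2)⁻¹
      = ((Equiv.Perm.sign τ : ℤ) : K) *
        ∏ p ∈ pairs k, (X p.2 - X p.1) * (1 - X p.1 * X p.2)⁻¹ := by
    have e1 := prod_pairs (k := k) (fun i j : Fin k => (X j - X i) * (1 - X i * X j)⁻¹)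
    have e2 := prod_pairs (k := k)
      (fun i j : Fin k => (X (τ j) - X (τ i)) * (1 - X (τ i) * X (τ j))⁻¹)
    have e3 := τ.prod_Ioi_comp_eq_sign_mul_prod
      (f := fun i j : Fin k => (X j - X i) * (1 - X i * X j)⁻¹) (fun i j => by
        rw [mul_comm (X i) (X j)]; ring)
    rw [e1, ← e3, ← e2]
    rfl
  unfold gg
  rw [h1, h2, zsmul_eq_mul]
  ring

private theorem flp_perm {K : Type} [Field K] {k : ℕ} (X : Fin k → K) (τ : Equiv.Perm (Fin k))
    (ε : Fin k → Bool) : flp ε (X ∘ τ) = (flp (ε ∘ τ.symm) X) ∘ τ := by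
  funext i
  simp [flp]

private theorem sg_perm {k : ℕ} (τ : Equiv.Perm (Fin k)) (ε : Fin k → Bool) :
    sg (ε ∘ τ.symm) = sg ε :=
  Equiv.prod_comp τ.symm (fun i => if ε i then (-1 : ℤ) else 1)

private theorem flp_flp {K : Type} [Field K] {k : ℕ} (X : Fin k → K) (δ ε : Fin k → Bool) :
    flp δ (flp ε X) = flp (fun i => xor (δ i) (ε i)) X := by
  funext i
  unfold flp
  rcases hd : δ i <;> rcases he : ε i <;> simp [hd, he]

private theorem sg_xor {k : ℕ} (δ ε : Fin k → Bool) :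
    sg (fun i => xor (δ i) (ε i)) = sg δ * sg ε := by
  unfold sg
  rw [← Finset.prod_mul_distrib]
  refine Finset.prod_congr rfl fun i _ => ?_
  rcases hd : δ i <;> rcases he : ε i <;> simp [hd, he]

private theorem sg_sq {k : ℕ} (ε : Fin k → Bool) : sg ε * sg ε = 1 := by
  unfold sg
  rw [← Finset.prod_mul_distrib]
  refine Finset.prod_eq_one fun i _ => ?_
  cases ε i <;> simp

/-- **EALT** -/
theorem ealt : Pool.Agent.H174.GM.S_EALT := by
  intro K _ k X
  constructor
  · intro τ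
    unfold ee
    rw [Finset.smul_sum]
    let e : (Fin k → Bool) ≃ (Fin k → Bool) :=
      { toFun := fun ε => ε ∘ τ.symm
        invFun := fun ε => ε ∘ τ
        left_inv := fun ε => by funext i; simp
        right_inv := fun ε => by funext i; simp }
    rw [← Equiv.sum_comp e (fun ε : Fin k → Bool =>
      (Equiv.Perm.sign τ : ℤ) • (sg ε • gg (flp ε X)))]
    refine Finset.sum_congr rfl fun ε _ => ?_
    show sg ε • gg (flp ε (X ∘ τ)) =
      (Equiv.Perm.sign τ : ℤ) • (sg (ε ∘ τ.symm) • gg (flp (ε ∘ τ.symm) X))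
    rw [flp_perm, gg_perm, sg_perm, smul_comm]
  · intro ε
    unfold ee
    rw [Finset.smul_sum]
    let e : (Fin k → Bool) ≃ (Fin k → Bool) :=
      { toFun := fun δ i => xor (δ i) (ε i)
        invFun := fun δ i => xor (δ i) (ε i)
        left_inv := fun δ => by funext i; simp
        right_inv := fun δ => by funext i; simp }
    rw [← Equiv.sum_comp e (fun δ : Fin k → Bool => sg ε • (sg δ • gg (flp δ X)))]
    refine Finset.sum_congr rfl fun δ _ => ?_
    show sg δ • gg (flp δ (flp ε X)) =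
      sg ε • (sg (fun i => xor (δ i) (ε i)) • gg (flp (fun i => xor (δ i) (ε i)) X))
    rw [flp_flp, sg_xor, smul_smul]
    congr 1
    rw [mul_left_comm, sg_sq, mul_one]

end Pool.Agent.H695.GM174
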