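import Pool.Agent.H174.GM.Stmts2

set_option autoImplicit false

namespace Pool.Agent.H695.GM174

open Finset Pool.Agent.H174.GM

/-- closed Gog walks of length `m` -/
private def GW (k m : ℕ) : Set (Fin (m + 1) → (Fin k → ℕ)) :=
  {w | w 0 = st k ∧ w (Fin.last m) = st k ∧
    ∀ t : Fin m, Step (w t.castSucc) (w t.succ) ∧ StrictMono (w t.succ) ∧ ∀ i, 1 ≤ w t.succ i}

private theorem sm_lower {k : ℕ} (f : Fin (k + 1) → ℕ) (hf : StrictMono f) (h0 : 1 ≤ f 0) :
    ∀ i : Fin (k + 1), i.1 + 1 ≤ f i := by
  intro i
  induction i using Fin.induction with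
  | zero => simpa using h0
  | succ i ih =>
    have h := hf (Fin.castSucc_lt_succ (i := i))
    simp only [Fin.val_castSucc, Fin.val_succ] at ih ⊢
    omega

/-- add one coordinate -/
private def addc {k m : ℕ} (v : Fin (m + 1) → (Fin k → ℕ)) : Fin (m + 1) → (Fin (k + 1) → ℕ) :=
  fun t => Fin.cons (α := fun _ => ℕ) 1 (fun i => v t i + 1)

private theorem addc_zero {k m : ℕ} (v : Fin (m + 1) → (Fin k → ℕ)) (t : Fin (m + 1)) :
    addc v t 0 = 1 := rfl

private theorem addc_succ {k m : ℕ} (v : Fin (m + 1) → (Fin k → ℕ)) (t : Fin (m + 1)) (i : Fin k) :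
    addc v t i.succ = v t i + 1 := rfl

private theorem addc_inj {k m : ℕ} : Function.Injective (addc (k := k) (m := m)) := by
  intro v v' h
  funext t i
  have := congrFun (congrFun h t) i.succ
  rw [addc_succ, addc_succ] at this
  omega

private theorem addc_st {k : ℕ} (f : Fin k → ℕ) (hf : f = st k) :
    Fin.cons (α := fun _ => ℕ) 1 (fun i => f i + 1) = st (k + 1) := by
  funext i
  refine Fin.cases ?_ (fun i => ?_) i
  · rfl
  · rw [Fin.cons_succ, hf]
    rfl

private theorem gw_addc (k : ℕ) (hk : 1 ≤ k) : addc '' GW k (k + 1) = GW (k + 1) (k + 1) := by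
  ext w
  constructor
  · rintro ⟨v, ⟨h0, h1, hs⟩, rfl⟩
    refine ⟨addc_st _ h0, addc_st _ h1, fun t => ?_⟩
    obtain ⟨⟨s1, s2⟩, s3, s4⟩ := hs t
    refine ⟨⟨?_, ?_⟩, ?_, ?_⟩
    · intro i
      refine Fin.cases ?_ (fun i => ?_) i
      · rw [addc_zero, addc_zero]
        omega
      · rw [addc_succ, addc_succ]
        have := s1 i
        omega
    · intro i j hij
      induction j using Fin.cases with
      | zero => simp at hij
      | succ j =>
        induction i using Fin.cases with
        | zero =>
          rw [addc_zero, addc_succ]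
          have := s4 j
          omega
        | succ i =>
          rw [addc_succ, addc_succ]
          have hij' : i.1 + 1 = j.1 := by
            simp only [Fin.val_succ] at hij
            omega
          have := s2 i j hij'
          omega
    · intro i j hij
      induction j using Fin.cases with
      | zero => exact absurd hij (Fin.not_lt_zero i)
      | succ j =>
        induction i using Fin.cases with
        | zero =>
          rw [addc_zero, addc_succ]
          have := s4 j
          omega
        | succ i =>
          rw [addc_succ, addc_succ]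
          have := s3 (Fin.succ_lt_succ_iff.1 hij)
          omega
    · intro i
      refine Fin.cases ?_ (fun i => ?_) i
      · rw [addc_zero]
      · rw [addc_succ]
        omega
  · rintro ⟨h0, h1, hs⟩
    -- lower bounds
    have hlow : ∀ (t : Fin (k + 1 + 1)) (i : Fin (k + 1)), i.1 + 1 ≤ w t i := by
      intro t i
      induction t using Fin.cases with
      | zero => rw [h0]; exact le_refl _
      | succ t => exact sm_lower _ (hs t).2.1 ((hs t).2.2 0) i
    -- upper bounds
    have hup : ∀ (s : ℕ) (t : Fin (k + 1 + 1)), t.1 + s = k + 1 → ∀ i : Fin (k + 1),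
        i.1 + s ≤ k → w t i ≤ i.1 + 1 := by
      intro s
      induction s with
      | zero =>
        intro t ht i _
        have : t = Fin.last (k + 1) := Fin.ext (by simpa using ht)
        rw [this, h1]
        exact le_refl _
      | succ s ih =>
        intro t ht i hi
        have htlt : t.1 < k + 1 := by omega
        have hcs : (⟨t.1, htlt⟩ : Fin (k + 1)).castSucc = t := rfl
        have hi1 : i.1 + 1 < k + 1 := by omega
        have h := ih (⟨t.1, htlt⟩ : Fin (k + 1)).succ (by simp only [Fin.val_succ]; omega)
          ⟨i.1 + 1, hi1⟩ (by show i.1 + 1 + s ≤ k; omega)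
        have h2 := (hs ⟨t.1, htlt⟩).1.2 i ⟨i.1 + 1, hi1⟩ rfl
        rw [hcs] at h2
        simp only at h
        omega
    have hzero : ∀ t : Fin (k + 1 + 1), w t 0 = 1 := by
      intro t
      have hl := hlow t 0
      simp only [Fin.val_zero] at hl
      by_cases ht : t = 0
      · rw [ht, h0]; rfl
      · have htpos : 0 < t.1 := Nat.pos_of_ne_zero fun h => ht (Fin.ext h)
        have := hup (k + 1 - t.1) t (by omega) 0 (by simp only [Fin.val_zero]; omega)
        simp only [Fin.val_zero] at this
        omega
    refine ⟨fun t i => w t i.succ - 1, ⟨?_, ?_, ?_⟩, ?_⟩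
    · funext i
      show w 0 i.succ - 1 = st k i
      rw [h0]
      rfl
    · funext i
      show w (Fin.last (k + 1)) i.succ - 1 = st k i
      rw [h1]
      rfl
    · intro t
      obtain ⟨⟨s1, s2⟩, s3, s4⟩ := hs t
      refine ⟨⟨?_, ?_⟩, ?_, ?_⟩
      · intro i
        have a1 := s1 i.succ
        have a2 := hlow t.castSucc i.succ
        have a3 := hlow t.succ i.succ
        simp only [Fin.val_succ] at a2 a3
        show w t.succ i.succ - 1 ≤ w t.castSucc i.succ - 1 + 1
        omega
      · intro i j hij
        have a1 := s2 i.succ j.succ (by simp only [Fin.val_succ]; omega)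
        have a2 := hlow t.castSucc i.succ
        simp only [Fin.val_succ] at a2
        show w t.castSucc i.succ - 1 + 1 ≤ w t.succ j.succ - 1
        omega
      · intro i j hij
        have a1 := s3 (Fin.succ_lt_succ_iff.2 hij)
        have a2 := hlow t.succ i.succ
        simp only [Fin.val_succ] at a2
        show w t.succ i.succ - 1 < w t.succ j.succ - 1
        omega
      · intro i
        have a2 := hlow t.succ i.succ
        simp only [Fin.val_succ] at a2
        show 1 ≤ w t.succ i.succ - 1
        omega
    · funext t i
      induction i using Fin.cases with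
      | zero => rw [addc_zero, hzero]
      | succ i =>
        rw [addc_succ]
        have a2 := hlow t i.succ
        simp only [Fin.val_succ] at a2
        show w t i.succ - 1 + 1 = w t i.succ
        omega

/-- **NORMG** -/
theorem normg (h1 : S_WG) : Pool.Agent.H174.GM.S_NORMG := by
  intro k hk
  have e1 : gogW (k + 1) (k + 1) = (GW (k + 1) (k + 1)).ncard := h1 (k + 1) (k + 1) (st (k + 1))
  have e2 : gogW (k + 1) k = (GW k (k + 1)).ncard := h1 k (k + 1) (st k)
  rw [e1, e2, ← gw_addc k hk, Set.ncard_image_of_injective _ addc_inj]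

end Pool.Agent.H695.GM174
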